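import Mathlib
import Pool.Agent.Y706.KC.Fin

/-!
# Common preperiodic points of two rational maps which are not defined over the same algebraically
closed field

Let `k` be an algebraically closed subfield of a field `L` of characteristic zero (for instance of
the field of complex numbers), `f` a rational map of degree `d ≥ 2` over `L` which is not defined
over `k`, and `g` a rational map over `k` of any degree at least two. Then `f` and `g` have at most
`8 d (d + 1) d^7 + 1` common preperiodic points, a bound which does not depend on `g`.

Proof. All preperiodic points of `g` lie in the projective line over `k`. So let `z_1, ..., z_r` be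
constants which are preperiodic for `f`; we may suppose that `L` is a function field of one variable
over `k`. The canonical height of the `z_i` is zero. At every place `v` the local canonical height of
`z_i` is close to that of the Gauss point, except for at most `d^n` of the `i`, and the local height
of the Gauss point is bounded below by the resultant of `f` at `v` (the lower bound for the diagonal
Green function). The product formula for the resultant gives a bound for `r`.
-/

set_option autoImplicit false

namespace Pool.Agent.Results.MP_3827f0_nt.MapOverSmallerField

open Polynomial

universe u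

/-- The self-map of the projective line `K ∪ {∞}`, where `none` is `∞`, given by the rational
function `p / q`, where `p` and `q` are coprime and `d` is the larger of their degrees: it sends
`x` to `p(x) / q(x)`, or to `∞` when `q(x) = 0`, and it sends `∞` to the quotient of the
coefficients of degree `d`, or to `∞` when that of `q` is zero. -/
noncomputable def mapP1 {K : Type*} [Field K] (p q : K[X]) (d : ℕ) : Option K → Option K
  | some x => by classical exact if q.eval x = 0 then none else some (p.eval x / q.eval x)
  | none => by classical exact if q.coeff d = 0 then none else some (p.coeff d / q.coeff d)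

/-- The preperiodic points of the rational map `p / q` of degree `d` in the projective line over
`K`: the points with finite orbit. -/
def Preper {K : Type*} [Field K] (p q : K[X]) (d : ℕ) : Set (Option K) :=
  {z | (Set.range fun m : ℕ => (mapP1 p q d)^[m] z).Finite}

/-- The rational function `p / q` over `L` is defined over the subfield `k`: for some nonzero `c`
in `L` the polynomials `c p` and `c q` have coefficients in `k`. -/
def DefinedOver (k : Type*) {L : Type*} [Field k] [Field L] [Algebra k L] (p q : L[X]) : Prop :=
  ∃ c : L, c ≠ 0 ∧ ∀ i, (∃ x : k, algebraMap k L x = c * p.coeff i) ∧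
    ∃ y : k, algebraMap k L y = c * q.coeff i

/-- Let `L` be a field extension of an algebraically closed field `k` of characteristic zero (for
instance `L` is the field of complex numbers and `k` an algebraically closed subfield), and let
`f = p / q` be a rational map of degree `d ≥ 2` over `L` which is not defined over `k`.
* At most `8 d (d + 1) d^7 + 1` points of the projective line over `k` are preperiodic for `f`.
* For every rational map `g = r / s` over `k`, of any degree `e ≥ 2`, the maps `f` and `g` have at
  most `8 d (d + 1) d^7 + 1` common preperiodic points in the projective line over `L`. -/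
theorem result (k L : Type u) [Field k] [CharZero k] [IsAlgClosed k] [Field L] [Algebra k L]
    (d : ℕ) (hd : 2 ≤ d) (p q : L[X]) (hco : IsCoprime p q) (hmax : max p.natDegree q.natDegree = d)
    (hk : ¬ DefinedOver k p q) :
    {z : Option k | z.map (algebraMap k L) ∈ Preper p q d}.encard ≤
      ((8 * d * (d + 1) * d ^ 7 + 1 : ℕ) : ℕ∞) ∧
    ∀ (e : ℕ), 2 ≤ e → ∀ r s : k[X], IsCoprime r s → max r.natDegree s.natDegree = e →
      (Preper p q d ∩ Preper (r.map (algebraMap k L)) (s.map (algebraMap k L)) e).encard ≤
        ((8 * d * (d + 1) * d ^ 7 + 1 : ℕ) : ℕ∞) := by
  have e1 : ∀ (p q : L[X]) (d : ℕ), mapP1 p q d = Pool.Agent.W277.UH.ratP1 p q d := by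
    intro p q d
    funext z
    cases z <;> rfl
  have h := Pool.Agent.Y706.KC.fin k L d hd p q hco hmax hk
  have hNN : Pool.Agent.Y706.KC.NN d = 8 * d * (d + 1) * d ^ 7 := rfl
  rw [hNN, ← e1] at h
  have h1 : {z : Option k | z.map (algebraMap k L) ∈ Preper p q d}.encard ≤
      ((8 * d * (d + 1) * d ^ 7 + 1 : ℕ) : ℕ∞) := by
    have h2 : {z : Option k | z.map (algebraMap k L) ∈ Preper p q d} ⊆ {none} ∪
        some '' {z : k | (Set.range fun m : ℕ =>
          (mapP1 p q d)^[m] (some (algebraMap k L z))).Finite} := by
      intro z hz
      cases z with
      | none => exact Or.inl rfl
      | some x => exact Or.inr ⟨x, hz, rfl⟩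
    refine (Set.encard_le_encard h2).trans ((Set.encard_union_le _ _).trans ?_)
    rw [Set.encard_singleton, (Option.some_injective k).encard_image, add_comm]
    push_cast
    exact add_le_add_left (by exact_mod_cast h) 1
  refine ⟨h1, ?_⟩
  intro e he r s hrs hrse
  have h3 : Preper p q d ∩ Preper (r.map (algebraMap k L)) (s.map (algebraMap k L)) e ⊆
      (Option.map (algebraMap k L)) '' {z : Option k | z.map (algebraMap k L) ∈ Preper p q d} := by
    rintro z ⟨hz1, hz2⟩
    cases z with
    | none => exact ⟨none, hz1, rfl⟩
    | some x =>
      have hz3 : (Set.range fun m : ℕ => (mapP1 (r.map (algebraMap k L))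
        (s.map (algebraMap k L)) e)^[m] (some x)).Finite := hz2
      rw [e1] at hz3
      obtain ⟨y, rfl⟩ := Pool.Agent.Y706.KC.pre_const he hrs hrse x hz3
      exact ⟨some y, hz1, rfl⟩
  refine (Set.encard_le_encard h3).trans ?_
  exact (Set.encard_image_le _ _).trans h1

end Pool.Agent.Results.MP_3827f0_nt.MapOverSmallerField
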